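import Pool.Agent.Helper74.SOL.Sol
import Pool.Agent.Helper52.UN.FinU

/-!
# The final class with virtually soluble groups
-/

set_option autoImplicit false

namespace Pool.Agent.Helper74.SOL

open Pool.Agent.Helper52.Wq2 Pool.Agent.Helper61.NW Pool.Agent.Helper52.NW Pool.Agent.Helper52.UN

universe u

/-- Virtually soluble, not virtually cyclic, and not virtually `ℤ²` or with a nontrivial finite
normal subgroup. -/
def Vs (D : Type u) [Group D] : Prop :=
  (∃ N : Subgroup D, N.FiniteIndex ∧ Group.IsSolvable N) ∧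
    (¬ ∃ c : D, (Subgroup.zpowers c).FiniteIndex) ∧
    ((∃ K : Subgroup D, K.Normal ∧ K ≠ ⊥ ∧ (K : Set D).Finite) ∨
      ¬ ∃ A : Subgroup D, A.FiniteIndex ∧ Nonempty (A ≃* Multiplicative (ℤ × ℤ)))

theorem uv_of_vs {D : Type u} [Group D] (h : Vs D) : Uv D := by
  obtain ⟨h1, h2, h3⟩ := h
  have hI : Infinite D := by
    by_contra hI
    have := not_infinite_iff_finite.1 hI
    exact h2 ⟨1, inferInstance⟩
  rcases sol_full hI h1 with h | h | h
  · exact absurd h h2
  · rcases h3 with h3 | h3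
    · exact fun T hT => Pool.Agent.Helper95.KZ.kz2 D T hT h h3
    · exact absurd h h3
  · exact h

theorem vs_of_vn {D : Type u} [Group D] (h : Vn D) : Vs D := by
  obtain ⟨⟨N, hN, hn⟩, h2⟩ := h
  exact ⟨⟨N, hN, inferInstance⟩, h2⟩

/-- The two kinds of large groups. -/
def LrgS (D : Type u) [Group D] : Prop := (¬ Group.FG D ∧ TameG D) ∨ Vs D

theorem uv_lrgS {Γ : Type u} [Group Γ] (h : ∃ D : Subgroup Γ, LrgS D) : Uv Γ := by
  obtain ⟨D, h | h⟩ := h
  · exact uv_of_sub D (uv_of_not_fg h.1 h.2)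
  · exact uv_of_sub D (uv_of_vs h)

/-- The class of groups. -/
def InCS (Γ : Type u) [Group Γ] : Prop :=
  Group.IsNilpotent Γ ∨ (Subgroup.center Γ).FiniteIndex ∨
    (∃ c : Γ, (Subgroup.zpowers c).FiniteIndex) ∨ ∃ D : Subgroup Γ, LrgS D

theorem typCS {Γ : Type u} [Group Γ] (hΓ : Infinite Γ) {S : Set Γ} (hS : IsGen S)
    (h : InCS Γ) :
    KN (cay S) ∨ (∃ b, Nonempty (cay S ≃g Lat b)) ∨ ∃ n, T3 (cay S) n := by
  rcases h with h | h | h | h
  · exact typC hΓ hS (Or.inl h)
  · exact typC hΓ hS (Or.inr (Or.inl h))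
  · exact typC hΓ hS (Or.inr (Or.inr (Or.inl h)))
  · exact Or.inl (uv_lrgS h S hS)

/-- The class of pairs. -/
def P0S (Γ : Type u) [Group Γ] (S : Set Γ) : Prop :=
  Countable Γ ∧ ((Infinite Γ ∧ InCS Γ) ∨ KN (cay S))

theorem wqo0S : Pool.Agent.Helper74.FP.Wqo.{u} (fun Γ _ S => P0S Γ S) := by
  intro Γ _ S hS hP
  have : ∀ i, Countable (Γ i) := fun i => (hP i).1
  refine sq3 Γ (fun i => cay (S i)) (fun i => ?_)
  rcases (hP i).2 with ⟨h1, h2⟩ | h1
  · exact typCS h1 (hS i) h2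
  · exact Or.inl h1

theorem vs_equiv {D E : Type u} [Group D] [Group E] (e : D ≃* E) (h : Vs D) : Vs E := by
  obtain ⟨⟨N, hN, hnil⟩, hc, hK⟩ := h
  refine ⟨⟨N.map (e : D →* E), ?_, ?_⟩, ?_, ?_⟩
  · constructor
    rw [Subgroup.index_map_equiv]
    exact hN.index_ne_zero
  · exact Group.isSolvable_of_surjective (f := (e.subgroupMap N).toMonoidHom)
      (e.subgroupMap N).surjective
  · rintro ⟨c, hc'⟩
    apply hc
    refine ⟨e.symm c, ?_⟩
    have : Subgroup.zpowers (e.symm c) = (Subgroup.zpowers c).map (e.symm : E →* D) := by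
      rw [MonoidHom.map_zpowers]; rfl
    rw [this]
    constructor
    rw [Subgroup.index_map_equiv]
    exact hc'.index_ne_zero
  · rcases hK with ⟨K, h1, h2, h3⟩ | hK
    · left
      refine ⟨K.map (e : D →* E), h1.map _ e.surjective, ?_, ?_⟩
      · intro h4
        apply h2
        exact (Subgroup.map_eq_bot_iff_of_injective K e.injective).1 h4
      · rw [Subgroup.coe_map]
        exact h3.image _
    · right
      rintro ⟨A, hA, ⟨f⟩⟩
      apply hK
      refine ⟨A.map (e.symm : E →* D), ?_, ⟨(e.symm.subgroupMap A).symm.trans f⟩⟩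
      constructor
      rw [Subgroup.index_map_equiv]
      exact hA.index_ne_zero

theorem vs_top {Γ : Type u} [Group Γ] (h : Vs Γ) : Vs (⊤ : Subgroup Γ) :=
  vs_equiv Subgroup.topEquiv.symm h

end Pool.Agent.Helper74.SOL
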