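import Pool.Agent.Helper13.NW.SCH

set_option autoImplicit false

namespace Pool.Agent.Helper74.SOL

open Pool.Agent.Helper52.Wq2 Pool.Agent.Helper61.NW

universe u

/-- The `t`-th power map from the centre of `N` to `Γ`. -/
def pw {Γ : Type u} [Group Γ] (N : Subgroup Γ) (t : ℕ) :
    Subgroup.center N →* Γ where
  toFun x := ((x : N) : Γ) ^ t
  map_one' := by simp
  map_mul' := by
    intro x y
    have h : Commute ((x : N) : Γ) ((y : N) : Γ) :=
      congrArg Subtype.val (Subgroup.mem_center_iff.1 y.2 (x : N))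
    rw [← h.mul_pow]
    rfl

theorem pw_apply {Γ : Type u} [Group Γ] (N : Subgroup Γ) (t : ℕ) (x : Subgroup.center N) :
    pw N t x = ((x : N) : Γ) ^ t := rfl

theorem pw_normal {Γ : Type u} [Group Γ] (N : Subgroup Γ) (hN : N.Normal) (t : ℕ) :
    (pw N t).range.Normal := by
  constructor
  rintro _ ⟨x, rfl⟩ g
  have hg : g * ((x : N) : Γ) * g⁻¹ ∈ N := hN.conj_mem _ (x : N).2 g
  have hc : (⟨g * ((x : N) : Γ) * g⁻¹, hg⟩ : N) ∈ Subgroup.center N := by
    rw [Subgroup.mem_center_iff]
    intro n
    apply Subtype.ext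
    have hn : g⁻¹ * (n : Γ) * g ∈ N := by
      have := hN.conj_mem _ n.2 g⁻¹
      rwa [inv_inv] at this
    have h1 := Subgroup.mem_center_iff.1 x.2 ⟨g⁻¹ * (n : Γ) * g, hn⟩
    have h2 : g⁻¹ * (n : Γ) * g * ((x : N) : Γ) = ((x : N) : Γ) * (g⁻¹ * (n : Γ) * g) :=
      congrArg Subtype.val h1
    change (n : Γ) * (g * ((x : N) : Γ) * g⁻¹) = g * ((x : N) : Γ) * g⁻¹ * n
    calc (n : Γ) * (g * ((x : N) : Γ) * g⁻¹) = g * (g⁻¹ * (n : Γ) * g * ((x : N) : Γ)) * g⁻¹ := by
          group
      _ = g * (((x : N) : Γ) * (g⁻¹ * (n : Γ) * g)) * g⁻¹ := by rw [h2]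
      _ = _ := by group
  refine ⟨⟨_, hc⟩, ?_⟩
  rw [pw_apply, pw_apply]
  exact conj_pow

/-- The main lemma. -/
theorem main {Γ : Type u} [Group Γ] (N : Subgroup Γ) (hN : N.Normal)
    (hinf : Infinite (Subgroup.center N))
    (θ : Subgroup.center N →* Multiplicative (ℤ × ℤ)) (hθ : (θ.ker : Set (Subgroup.center N)).Finite) :
    (∃ z : Γ, (∀ n : ℤ, z ^ n = 1 → n = 0) ∧ (Subgroup.zpowers z).Normal) ∨
      ∃ a b : Γ, a * b = b * a ∧ (∀ i j : ℤ, a ^ i * b ^ j = 1 → i = 0 ∧ j = 0) ∧
        (Subgroup.closure {a, b}).Normal := by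
  classical
  have hfin : Finite θ.ker := hθ
  set t := Nat.card θ.ker with ht
  have htpos : 0 < t := Nat.card_pos
  have hker : ∀ x, θ x = 1 → pw N t x = 1 := by
    intro x hx
    have h1 : (⟨x, hx⟩ : θ.ker) ^ t = 1 := pow_card_eq_one'
    have h2 : x ^ t = 1 := congrArg Subtype.val h1
    rw [pw_apply]
    have h3 : ((x ^ t : Subgroup.center N) : N) = 1 := by rw [h2]; rfl
    have h4 : (((x ^ t : Subgroup.center N) : N) : Γ) = 1 := by rw [h3]; rfl
    simpa using h4
  have hker2 : ∀ x, pw N t x = 1 → θ x = 1 := by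
    intro x hx
    rw [pw_apply] at hx
    have h2 : x ^ t = 1 := by
      apply Subtype.ext; apply Subtype.ext
      simpa using hx
    have h3 : (θ x) ^ t = 1 := by rw [← map_pow, h2, map_one]
    have h4 : t • (θ x).toAdd = 0 := by
      rw [← toAdd_pow, h3]; rfl
    have h5 : (θ x).toAdd = 0 := by
      rcases smul_eq_zero.1 h4 with h | h
      · omega
      · exact h
    exact Multiplicative.toAdd.injective h5
  -- the range
  let R0 : AddSubgroup (ℤ × ℤ) :=
    { carrier := {v | ∃ x, (θ x).toAdd = v}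
      zero_mem' := ⟨1, by rw [map_one]; rfl⟩
      add_mem' := by
        rintro _ _ ⟨x, rfl⟩ ⟨y, rfl⟩
        exact ⟨x * y, by rw [map_mul]; rfl⟩
      neg_mem' := by
        rintro _ ⟨x, rfl⟩
        exact ⟨x⁻¹, by rw [map_inv]; rfl⟩ }
  let R : Submodule ℤ (ℤ × ℤ) := AddSubgroup.toIntSubmodule R0
  obtain ⟨n, ⟨bs⟩⟩ := Submodule.nonempty_basis_of_pid (Module.Free.chooseBasis ℤ (ℤ × ℤ)) R
  have hn : n ≤ 2 := by
    have h1 := (bs.linearIndependent.map' R.subtype (Submodule.ker_subtype R)).fintype_card_le_finrank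
    simpa using h1
  have hx : ∀ i, ∃ x, (θ x).toAdd = (bs i : ℤ × ℤ) := fun i => (bs i).2
  choose y hy using hx
  have hgen : ∀ x, ∃ c : Fin n → ℤ, (θ x).toAdd = ∑ i, c i • (bs i : ℤ × ℤ) := by
    intro x
    have hm : (θ x).toAdd ∈ R := ⟨x, rfl⟩
    refine ⟨fun i => bs.repr ⟨_, hm⟩ i, ?_⟩
    have := congrArg R.subtype (bs.sum_repr ⟨_, hm⟩)
    rw [map_sum] at this
    simp only [map_smul, Submodule.subtype_apply] at this
    exact this.symm
  have hind : ∀ c : Fin n → ℤ, ∑ i, c i • (bs i : ℤ × ℤ) = 0 → ∀ i, c i = 0 := by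
    intro c hc
    have := Fintype.linearIndependent_iff.1
      (bs.linearIndependent.map' R.subtype (Submodule.ker_subtype R)) c (by simpa using hc)
    exact this
  have hnor := pw_normal N hN t
  have heq : ∀ x x', θ x = θ x' → pw N t x = pw N t x' := by
    intro x x' h
    have := hker (x * x'⁻¹) (by rw [map_mul, map_inv, h, mul_inv_cancel])
    rwa [map_mul, map_inv, mul_inv_eq_one] at this
  have hθn : θ.ker ≠ ⊤ := by
    intro h
    rw [h] at hfin
    have : Finite (Subgroup.center N) := Finite.of_injective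
      (fun x => (⟨x, Subgroup.mem_top x⟩ : (⊤ : Subgroup (Subgroup.center N))))
      (fun a b hab => congrArg Subtype.val hab)
    exact not_finite (Subgroup.center N)
  interval_cases n
  · exfalso
    apply hθn
    rw [Subgroup.eq_top_iff']
    intro x
    obtain ⟨c, hc⟩ := hgen x
    rw [MonoidHom.mem_ker]
    apply Multiplicative.toAdd.injective
    rw [hc]; simp
  · left
    refine ⟨pw N t (y 0), ?_, ?_⟩
    · intro k hk
      rw [← map_zpow] at hk
      have h1 := hker2 _ hk
      have h2 := hind (fun _ => k) (by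
        rw [Fin.sum_univ_one, ← hy, ← toAdd_zpow, ← map_zpow, h1]; rfl)
      exact h2 0
    · have : Subgroup.zpowers (pw N t (y 0)) = (pw N t).range := by
        apply le_antisymm
        · rw [Subgroup.zpowers_le]; exact ⟨_, rfl⟩
        · rintro _ ⟨x, rfl⟩
          obtain ⟨c, hc⟩ := hgen x
          rw [Fin.sum_univ_one, ← hy, ← toAdd_zpow, ← map_zpow] at hc
          rw [heq x (y 0 ^ c 0) (Multiplicative.toAdd.injective hc), map_zpow]
          exact Subgroup.zpow_mem_zpowers _ _
      rw [this]; exact hnor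
  · right
    refine ⟨pw N t (y 0), pw N t (y 1), ?_, ?_, ?_⟩
    · rw [← map_mul, ← map_mul]
      refine heq _ _ ?_
      rw [map_mul, map_mul, mul_comm]
    · intro k l hkl
      rw [← map_zpow, ← map_zpow, ← map_mul] at hkl
      have h1 := hker2 _ hkl
      have h2 := hind (fun i => if i = 0 then k else l) (by
        rw [Fin.sum_univ_two, ← hy, ← hy, if_pos rfl, if_neg (by decide), ← toAdd_zpow,
          ← toAdd_zpow, ← toAdd_mul, ← map_zpow, ← map_zpow, ← map_mul, h1]; rfl)
      exact ⟨by simpa using h2 0, by simpa using h2 1⟩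
    · have : Subgroup.closure {pw N t (y 0), pw N t (y 1)} = (pw N t).range := by
        apply le_antisymm
        · rw [Subgroup.closure_le]
          rintro x (rfl | rfl)
          · exact ⟨_, rfl⟩
          · exact ⟨_, rfl⟩
        · rintro _ ⟨x, rfl⟩
          obtain ⟨c, hc⟩ := hgen x
          rw [Fin.sum_univ_two, ← hy, ← hy, ← toAdd_zpow, ← toAdd_zpow, ← toAdd_mul,
            ← map_zpow, ← map_zpow, ← map_mul] at hc
          rw [heq x _ (Multiplicative.toAdd.injective hc), map_mul, map_zpow, map_zpow]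
          exact Subgroup.mul_mem _ (Subgroup.zpow_mem _ (Subgroup.subset_closure (by simp)) _)
            (Subgroup.zpow_mem _ (Subgroup.subset_closure (by simp)) _)
      rw [this]; exact hnor

/-- **S2.** The bottom layer of an infinite soluble group all of whose subgroups are finitely
generated. -/
theorem bottom {Γ : Type u} [Group Γ] (hΓ : Infinite Γ) (hs : Group.IsSolvable Γ)
    (hN : ∀ H : Subgroup Γ, H.FG) : (∃ D : Subgroup Γ, Big D) ∨
    (∃ z : Γ, (∀ n : ℤ, z ^ n = 1 → n = 0) ∧ (Subgroup.zpowers z).Normal) ∨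
      ∃ a b : Γ, a * b = b * a ∧ (∀ i j : ℤ, a ^ i * b ^ j = 1 → i = 0 ∧ j = 0) ∧
        (Subgroup.closure {a, b}).Normal := by
  classical
  obtain ⟨m, hm⟩ := (Group.isSolvable_def Γ).1 hs
  have hex : ∃ n, Finite (derivedSeries Γ n) := ⟨m, by rw [hm]; infer_instance⟩
  have h0 : Nat.find hex ≠ 0 := by
    intro h
    have h1 := Nat.find_spec hex
    rw [h, derivedSeries_zero] at h1
    have : Finite Γ := Finite.of_injective
      (fun x => (⟨x, Subgroup.mem_top x⟩ : (⊤ : Subgroup Γ))) (fun a b hab => congrArg Subtype.val hab)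
    exact not_finite Γ
  obtain ⟨n, hn⟩ := Nat.exists_eq_succ_of_ne_zero h0
  have hfin : Finite (derivedSeries Γ (n + 1)) := by
    have := Nat.find_spec hex
    rwa [hn] at this
  have hinf : Infinite (derivedSeries Γ n) := by
    have := Nat.find_min hex (m := n) (by omega)
    exact not_finite_iff_infinite.1 this
  set N := derivedSeries Γ n with hNdef
  have hfg : Group.FG N := (Group.fg_iff_subgroup_fg N).2 (hN N)
  have hcs : Finite (commutatorSet N) := by
    refine Finite.of_injective (fun x : commutatorSet N =>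
      (⟨((x : N) : Γ), ?_⟩ : derivedSeries Γ (n + 1))) ?_
    · obtain ⟨g, h, hgh⟩ := x.2
      rw [derivedSeries_succ, ← hgh]
      exact Subgroup.commutator_mem_commutator g.2 h.2
    · intro x y hxy
      apply Subtype.ext; apply Subtype.ext
      exact congrArg (fun z : derivedSeries Γ (n + 1) => (z : Γ)) hxy
  have hcf : (Subgroup.center N).FiniteIndex := inferInstance
  have hcinf : Infinite (Subgroup.center N) := by
    by_contra hc
    have hc' : Finite (Subgroup.center N) := not_infinite_iff_finite.1 hc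
    have h1 := Subgroup.card_mul_index (Subgroup.center N)
    have h2 : Nat.card N ≠ 0 := by
      rw [← h1]
      exact Nat.mul_ne_zero (Nat.card_pos (α := Subgroup.center N)).ne' hcf.index_ne_zero
    have : Finite N := Nat.finite_of_card_ne_zero h2
    exact not_finite N
  have hnor : N.Normal := by rw [hNdef]; infer_instance
  rcases Pool.Agent.Helper13.NW.sch N hfg hinf hcf with h | ⟨h, -, hk⟩ | ⟨h, -, hk⟩
  · exact Or.inl ⟨N, h⟩
  · right
    let e : Multiplicative ℤ →* Multiplicative (ℤ × ℤ) :=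
      AddMonoidHom.toMultiplicative (AddMonoidHom.inl ℤ ℤ)
    refine main N hnor hcinf ((e.comp h).comp (Subgroup.center N).subtype) ?_
    refine (hk.preimage (f := fun x : Subgroup.center N => (x : N))
      (Subtype.val_injective.injOn)).subset ?_
    intro x hx
    have hx' : e (h x) = 1 := hx
    have hi : Function.Injective e := fun a b hab => by
      have := congrArg (fun z : Multiplicative (ℤ × ℤ) => z.toAdd.1) hab
      exact Multiplicative.toAdd.injective this
    exact hi (by rw [hx', map_one])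
  · right
    refine main N hnor hcinf (h.comp (Subgroup.center N).subtype) ?_
    exact (hk.preimage (f := fun x : Subgroup.center N => (x : N))
      (Subtype.val_injective.injOn)).subset fun x hx => hx

end Pool.Agent.Helper74.SOL
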