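import Pool.Agent.Helper74.SOL.S2
import Pool.Agent.Helper91.SOL.S4
import Pool.Agent.Helper14.SOL.S5
import Pool.Agent.Helper52.UN.U3
import Pool.Agent.Helper80.UN.U4
import Pool.Agent.Helper80.UN.U5
import Pool.Agent.Helper23.NW.INF

set_option autoImplicit false

namespace Pool.Agent.Helper74.SOL

open Pool.Agent.Helper52.Wq2 Pool.Agent.Helper61.NW Pool.Agent.Helper52.UN

universe u

/-- The form of U5. -/
def U5S : Prop := ∀ (D : Type u) [Group D] (a b : D), a * b = b * a →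
  (∀ i j : ℤ, a ^ i * b ^ j = 1 → i = 0 ∧ j = 0) → (Subgroup.closure {a, b}).Normal →
  ¬ (Subgroup.closure {a, b}).FiniteIndex → Uv D

theorem u5s : U5S.{u} := fun D _ a b hab hind hn hidx T hT =>
  Pool.Agent.Helper80.UN.u5 D T hT a b hab hind hn hidx

/-- A group with a central `z` as in `Big` is universal. -/
theorem uv_of_big {D : Type u} [Group D] (h : Big D) : Uv D := by
  obtain ⟨z, w, h1, h2, h3⟩ := h
  intro T hT
  refine Pool.Agent.Helper80.UN.u4 D T hT ⟨z, w, h1 w, h2, ?_, h3⟩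
  refine (Set.finite_singleton z).subset ?_
  rintro _ ⟨g, rfl⟩
  simp only [Set.mem_singleton_iff]
  rw [mul_assoc, ← h1 g, inv_mul_cancel_left]

theorem no_free_solvable {N : Type u} [Group N] (hs : Group.IsSolvable N)
    (f : FreeGroup (Fin 2) →* N) : ¬ Function.Injective f := by
  intro hinj
  have h1 : Group.IsSolvable (FreeGroup (Fin 2)) := Group.isSolvable_of_isSolvable_injective hinj
  have h2 : f = FreeGroup.lift (![f (FreeGroup.of 0), f (FreeGroup.of 1)] : Fin 2 → N) := by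
    apply FreeGroup.ext_hom
    intro i
    fin_cases i <;> simp
  exact Pool.Agent.Helper23.NW.no_free hs _ _ (h2 ▸ hinj)

/-- Soluble groups. -/
theorem sol_solvable (h5 : U5S.{u}) {Γ : Type u} [Group Γ] (hΓ : Infinite Γ)
    (hs : Group.IsSolvable Γ) :
    (∃ c : Γ, (Subgroup.zpowers c).FiniteIndex) ∨
      (∃ A : Subgroup Γ, A.FiniteIndex ∧ Nonempty (A ≃* Multiplicative (ℤ × ℤ))) ∨ Uv Γ := by
  by_cases hN : ∀ H : Subgroup Γ, H.FG
  · rcases bottom hΓ hs hN with ⟨D, hD⟩ | ⟨z, hz, hzn⟩ | ⟨a, b, hab, hi, hn⟩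
    · exact Or.inr (Or.inr (uv_of_sub D (uv_of_big hD)))
    · rcases Pool.Agent.Helper91.SOL.s4 hs hN z hz hzn with h | h | ⟨D, hD⟩
      · exact Or.inl h
      · exact Or.inr (Or.inl h)
      · exact Or.inr (Or.inr (uv_of_sub D (uv_of_big hD)))
    · by_cases hfi : (Subgroup.closure {a, b}).FiniteIndex
      · exact Or.inr (Or.inl ⟨_, hfi, Pool.Agent.Helper14.SOL.s5 a b hab hi⟩)
      · exact Or.inr (Or.inr (h5 Γ a b hab hi hn hfi))
  · push Not at hN
    obtain ⟨H, hH⟩ := hN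
    refine Or.inr (Or.inr (uv_of_sub H (uv_of_not_fg ?_ ?_)))
    · intro h
      exact hH ((Group.fg_iff_subgroup_fg H).1 h)
    · have hsH : Group.IsSolvable H := inferInstance
      refine Or.inr ⟨⊤, inferInstance, ?_, Or.inl ?_⟩
      · have : Infinite H := by
          by_contra hf
          have hf' : Finite H := not_infinite_iff_finite.1 hf
          exact hH ((Group.fg_iff_subgroup_fg H).1 inferInstance)
        exact Infinite.of_injective
          (fun x : H => (⟨x, Subgroup.mem_top x⟩ : (⊤ : Subgroup H)))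
          (fun a b hab => congrArg Subtype.val hab)
      · intro f
        exact no_free_solvable inferInstance f

/-- **SOL.** Infinite virtually soluble groups. -/
theorem sol (h5 : U5S.{u}) {Γ : Type u} [Group Γ] (hΓ : Infinite Γ)
    (hs : ∃ G₀ : Subgroup Γ, G₀.FiniteIndex ∧ Group.IsSolvable G₀) :
    (∃ c : Γ, (Subgroup.zpowers c).FiniteIndex) ∨
      (∃ A : Subgroup Γ, A.FiniteIndex ∧ Nonempty (A ≃* Multiplicative (ℤ × ℤ))) ∨ Uv Γ := by
  obtain ⟨G₀, hf, hs⟩ := hs
  have hinf : Infinite G₀ := by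
    by_contra h
    have h' : Finite G₀ := not_infinite_iff_finite.1 h
    have h1 := Subgroup.card_mul_index G₀
    have h2 : Nat.card Γ ≠ 0 := by
      rw [← h1]
      exact Nat.mul_ne_zero (Nat.card_pos (α := G₀)).ne' hf.index_ne_zero
    have : Finite Γ := Nat.finite_of_card_ne_zero h2
    exact not_finite Γ
  rcases sol_solvable h5 hinf hs with ⟨c, hc⟩ | ⟨A, hA, ⟨e⟩⟩ | h
  · left
    refine ⟨(c : Γ), ?_⟩
    have h1 := Pool.Agent.Helper91.SOL.finiteIndex_map G₀ (Subgroup.zpowers c) hc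
    rwa [MonoidHom.map_zpowers] at h1
  · right; left
    have h1 := Pool.Agent.Helper91.SOL.finiteIndex_map G₀ A hA
    exact ⟨_, h1, ⟨(A.equivMapOfInjective G₀.subtype (Subtype.val_injective)).symm.trans e⟩⟩
  · exact Or.inr (Or.inr (uv_of_sub G₀ h))

/-- **SOL**, without hypotheses. -/
theorem sol_full {Γ : Type u} [Group Γ] (hΓ : Infinite Γ)
    (hs : ∃ G₀ : Subgroup Γ, G₀.FiniteIndex ∧ Group.IsSolvable G₀) :
    (∃ c : Γ, (Subgroup.zpowers c).FiniteIndex) ∨
      (∃ A : Subgroup Γ, A.FiniteIndex ∧ Nonempty (A ≃* Multiplicative (ℤ × ℤ))) ∨ Uv Γ :=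
  sol u5s hΓ hs

end Pool.Agent.Helper74.SOL
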